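import Pool.Agent.Helper45GL.Core

set_option autoImplicit false
set_option linter.unusedSectionVars false

/-!
# Pairs linked in dimension `d + 1` are globally linked in dimension `d`

For every `d`, every finite graph `G` and every pair `u, v` of vertices: if `{u, v}` is linked in
`G` in `ℝ^(d+1)`, then `{u, v}` is globally linked in `G` in `ℝ^d`.

Idea of the proof. Let `p` be generic in `ℝ^d` and `q` equivalent to `p`. For all `z : V → ℝ` such
that `(z, p)` is generic in `ℝ^(d+1)` there is an equilibrium stress `ω_z` of `(G + uv, (z, p))` with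
`ω_z(uv) = 1`; let `Ω_z` be its stress matrix. The difference `ω_z - ω_z'` is a stress of `(G, p)`,
hence of `(G, q)`. So for every coordinate `y` of `q` the vector `Ω_z y` does not depend on `z`. As
`Ω_z z = 0`, this vector is orthogonal to all `z`, and the `z` are dense. So `Ω_z y = 0`, and
comparing the stress energies of `p` and `q` gives the claim.
-/

namespace Pool.Agent.Results.MP_32f1bc_co.LinkedGloballyLinked

/-- A realization `p : V → ℝ^d` is generic if its `d |V|` coordinates are algebraically
independent over `ℚ`. -/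
def IsGeneric {V : Type*} {d : ℕ} (p : V → EuclideanSpace ℝ (Fin d)) : Prop :=
  AlgebraicIndependent ℚ (fun i : V × Fin d => p i.1 i.2)

open Classical in
/-- The row of the pair `x, y` in the rigidity matrix of the realization `p`: it has `p x - p y` in
the `d` columns of `x`, `p y - p x` in the `d` columns of `y`, and zeros elsewhere. -/
noncomputable def row {V : Type*} {d : ℕ} (p : V → EuclideanSpace ℝ (Fin d)) (x y : V) :
    V × Fin d → ℝ :=
  fun c => if c.1 = x then p x c.2 - p y c.2 else if c.1 = y then p y c.2 - p x c.2 else 0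

/-- The rank of the rigidity matrix of the framework `(G, p)`. -/
noncomputable def rigidityRank {V : Type*} {d : ℕ} (G : SimpleGraph V)
    (p : V → EuclideanSpace ℝ (Fin d)) : ℕ :=
  Module.finrank ℝ (Submodule.span ℝ {r | ∃ x y, G.Adj x y ∧ r = row p x y})

/-- The pair `u, v` is linked in `G` in `ℝ^d`: adding the edge `uv` does not increase the rank of
the rigidity matrix of a generic realization in `ℝ^d`. (All generic realizations give the same
rank.) -/
def Linked {V : Type*} (d : ℕ) (G : SimpleGraph V) (u v : V) : Prop :=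
  ∃ p : V → EuclideanSpace ℝ (Fin d), IsGeneric p ∧
    rigidityRank (G ⊔ SimpleGraph.edge u v) p = rigidityRank G p

/-- The pair `u, v` is globally linked in `G` in `ℝ^d`: for every generic realization `(G, p)` in
`ℝ^d` and every equivalent realization `(G, q)` in `ℝ^d` we have `‖p u - p v‖ = ‖q u - q v‖`. -/
def GloballyLinked {V : Type*} (d : ℕ) (G : SimpleGraph V) (u v : V) : Prop :=
  ∀ p : V → EuclideanSpace ℝ (Fin d), IsGeneric p → ∀ q : V → EuclideanSpace ℝ (Fin d),
    (∀ x y, G.Adj x y → ‖p x - p y‖ = ‖q x - q y‖) → ‖p u - p v‖ = ‖q u - q v‖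

section aux

open Set Matrix MvPolynomial Pool.Agent.H135R2.VS Pool.Agent.Helper45GL

variable {V : Type*} {d : ℕ} [Fintype V] [DecidableEq V]

theorem row_eq_add (p : V → EuclideanSpace ℝ (Fin d)) (x y : V) (c : V × Fin d) :
    row p x y c = (if c.1 = x then p x c.2 - p y c.2 else 0) +
      (if c.1 = y then p y c.2 - p x c.2 else 0) := by
  unfold row
  by_cases h1 : c.1 = x
  · by_cases h2 : c.1 = y
    · have h3 : x = y := h1.symm.trans h2
      subst h3
      simp
    · simp [h1, h1 ▸ h2]
  · simp [h1]

theorem row_eq_evm {G : SimpleGraph V} (p : V → EuclideanSpace ℝ (Fin d)) {x y : V}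
    (h : G.Adj x y) : (evm (Rp d ⊥ G) (unc fun i a => p i a)) (x, y) = row p x y := by
  funext c
  rw [row_eq_add]
  simp only [evm, Matrix.map_apply, Rp, Matrix.of_apply, if_pos h, map_add]
  congr 1
  · split_ifs <;> simp [unc]
  · split_ifs <;> simp [unc]

theorem row_eq_zero {G : SimpleGraph V} (p : V → EuclideanSpace ℝ (Fin d)) {x y : V}
    (h : ¬ G.Adj x y) : (evm (Rp d ⊥ G) (unc fun i a => p i a)) (x, y) = 0 := by
  funext c
  simp [evm, Matrix.map_apply, Rp, Matrix.of_apply, h]

theorem span_rows (G : SimpleGraph V) (p : V → EuclideanSpace ℝ (Fin d)) :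
    Submodule.span ℝ {r | ∃ x y, G.Adj x y ∧ r = row p x y} =
      Submodule.span ℝ (range (evm (Rp d ⊥ G) (unc fun i a => p i a)).row) := by
  apply le_antisymm
  · apply Submodule.span_mono
    rintro _ ⟨x, y, h, rfl⟩
    exact ⟨(x, y), row_eq_evm p h⟩
  · rw [Submodule.span_le]
    rintro _ ⟨⟨x, y⟩, rfl⟩
    by_cases h : G.Adj x y
    · exact Submodule.subset_span ⟨x, y, h, row_eq_evm p h⟩
    · have : (evm (Rp d ⊥ G) (unc fun i a => p i a)).row (x, y) = 0 := row_eq_zero p h
      rw [this]
      exact Submodule.zero_mem _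

theorem rigidityRank_eq (G : SimpleGraph V) (p : V → EuclideanSpace ℝ (Fin d)) :
    rigidityRank G p = (evm (Rp d ⊥ G) (unc fun i a => p i a)).rank := by
  rw [Matrix.rank_eq_finrank_span_row, ← span_rows]
  rfl

/-- The rank is maximal at generic realizations. -/
theorem rigidityRank_le (G : SimpleGraph V) {p p' : V → EuclideanSpace ℝ (Fin d)}
    (hp : IsGeneric p) : rigidityRank G p' ≤ rigidityRank G p := by
  rw [rigidityRank_eq, rigidityRank_eq]
  exact rank_le_generic (Rp d ⊥ G) (bot_of_rat hp)

theorem sum_row (p : V → EuclideanSpace ℝ (Fin d)) (x y : V) (m : Conf d V) :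
    ∑ c : V × Fin d, row p x y c * m c.1 c.2 = fl (fun i a => p i a) m x y := by
  simp only [row_eq_add, add_mul]
  rw [Finset.sum_add_distrib, Fintype.sum_prod_type, Fintype.sum_prod_type]
  have h1 : ∀ (w z : V), ∑ k : Fin d, (if w = z then p x k - p y k else 0) * m w k =
      if w = z then ∑ k : Fin d, (p x k - p y k) * m z k else 0 := by
    intro w z
    split_ifs with h
    · rw [h]
    · simp
  have h2 : ∀ (w z : V), ∑ k : Fin d, (if w = z then p y k - p x k else 0) * m w k =
      if w = z then ∑ k : Fin d, (p y k - p x k) * m z k else 0 := by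
    intro w z
    split_ifs with h
    · rw [h]
    · simp
  simp only [h1, h2, Finset.sum_ite_eq', Finset.mem_univ, if_true]
  rw [← Finset.sum_add_distrib]
  unfold fl
  exact Finset.sum_congr rfl fun a _ => by ring

/-- Elements of the row space as weights on the edges. -/
theorem exists_weights {G : SimpleGraph V} (p : V → EuclideanSpace ℝ (Fin d))
    {r : V × Fin d → ℝ} (hr : r ∈ Submodule.span ℝ {r | ∃ x y, G.Adj x y ∧ r = row p x y}) :
    ∃ ω : V → V → ℝ, (∀ i j, ¬ G.Adj i j → ω i j = 0) ∧
      ∀ m : Conf d V, ∑ c : V × Fin d, r c * m c.1 c.2 =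
        ∑ i, ∑ j, ω i j * fl (fun i a => p i a) m i j := by
  induction hr using Submodule.span_induction with
  | mem r hr =>
    obtain ⟨x, y, h, rfl⟩ := hr
    refine ⟨fun i j => if i = x then (if j = y then 1 else 0) else 0, ?_, fun m => ?_⟩
    · intro i j hij
      by_cases h1 : i = x
      · by_cases h2 : j = y
        · subst h1; subst h2; exact absurd h hij
        · simp [h2]
      · simp [h1]
    · rw [sum_row]
      have h1 : ∀ i, ∑ j, (if i = x then (if j = y then (1 : ℝ) else 0) else 0) *
          fl (fun i a => p i a) m i j = if i = x then fl (fun i a => p i a) m x y else 0 := by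
        intro i
        by_cases h1 : i = x
        · simp [h1]
        · simp [h1]
      simp only [h1]
      simp
  | zero =>
    exact ⟨fun _ _ => 0, fun _ _ _ => rfl, fun m => by simp⟩
  | add r r' _ _ ih ih' =>
    obtain ⟨ω, h1, h2⟩ := ih
    obtain ⟨ω', h1', h2'⟩ := ih'
    refine ⟨fun i j => ω i j + ω' i j, fun i j hij => by simp [h1 i j hij, h1' i j hij],
      fun m => ?_⟩
    simp only [Pi.add_apply, add_mul, Finset.sum_add_distrib, h2 m, h2' m]
  | smul c r _ ih =>
    obtain ⟨ω, h1, h2⟩ := ih
    refine ⟨fun i j => c * ω i j, fun i j hij => by simp [h1 i j hij], fun m => ?_⟩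
    simp only [Pi.smul_apply, smul_eq_mul, mul_assoc, ← Finset.mul_sum, h2 m]

end aux

/-- **The theorem.** For every `d` (in particular for every `d ≥ 3`), every finite graph `G` and
every pair `u, v` of its vertices: if `{u, v}` is linked in `G` in `ℝ^(d+1)`, then `{u, v}` is
globally linked in `G` in `ℝ^d`. -/
theorem result {V : Type*} [Finite V] (d : ℕ) (G : SimpleGraph V) (u v : V)
    (h : Linked (d + 1) G u v) : GloballyLinked d G u v := by
  classical
  have := Fintype.ofFinite V
  obtain ⟨P, hP, hrk⟩ := h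
  intro p hp q hq
  have hsq : ∀ (p : V → EuclideanSpace ℝ (Fin d)) (i j : V),
      Pool.Agent.H135R2.VS.fl (fun i a => p i a) (fun i a => p i a) i j = ‖p i - p j‖ ^ 2 := by
    intro p i j
    rw [EuclideanSpace.norm_sq_eq]
    unfold Pool.Agent.H135R2.VS.fl
    refine Finset.sum_congr rfl fun a _ => ?_
    simp only [PiLp.sub_apply, Real.norm_eq_abs, sq_abs]
    ring
  have hmain := Pool.Agent.Helper45GL.core (G := G) (p := fun i a => p i a)
    (q := fun i a => q i a) hp (fun i j hij => by rw [hsq, hsq, hq i j hij]) u v ?_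
  · rw [hsq, hsq] at hmain
    exact ((sq_eq_sq₀ (norm_nonneg _) (norm_nonneg _)).1 hmain).symm
  intro z hz
  -- the realization `(z, p)` in dimension `d + 1`
  let R : V → EuclideanSpace ℝ (Fin (d + 1)) := fun i =>
    WithLp.toLp 2 (Pool.Agent.Helper45GL.lift (fun i a => p i a) z i)
  have hR : IsGeneric R := hz
  have h1 : rigidityRank (G ⊔ SimpleGraph.edge u v) R ≤ rigidityRank G R :=
    (rigidityRank_le _ hP).trans (hrk.le.trans (rigidityRank_le _ hR))
  have h2 : Submodule.span ℝ {r | ∃ x y, G.Adj x y ∧ r = row R x y} ≤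
      Submodule.span ℝ {r | ∃ x y, (G ⊔ SimpleGraph.edge u v).Adj x y ∧ r = row R x y} := by
    apply Submodule.span_mono
    rintro _ ⟨x, y, hxy, rfl⟩
    exact ⟨x, y, Or.inl hxy, rfl⟩
  have h3 := Submodule.eq_of_le_of_finrank_le h2 h1
  have h4 : row R u v ∈ Submodule.span ℝ {r | ∃ x y, G.Adj x y ∧ r = row R x y} := by
    by_cases huv : u = v
    · have : row R u v = 0 := by
        subst huv
        funext c
        simp [row]
      rw [this]
      exact Submodule.zero_mem _
    · rw [h3]
      refine Submodule.subset_span ⟨u, v, ?_, rfl⟩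
      right
      rw [SimpleGraph.edge_adj]
      exact ⟨Or.inl ⟨rfl, rfl⟩, huv⟩
  obtain ⟨ω, hω, hm⟩ := exists_weights R h4
  refine ⟨ω, hω, fun a g => ?_⟩
  have h5 := Pool.Agent.H135R2.VS.en_eq_sum_fl ω
    (Pool.Agent.Helper45GL.lift (fun i a => p i a) z) a g
  rw [h5]
  let m : Pool.Agent.H135R2.VS.Conf (d + 1) V := fun i => g i • Pi.single a 1
  have h6 := (sum_row R u v m).symm.trans (hm m)
  refine h6.symm.trans ?_
  rw [Pool.Agent.H135R2.VS.fl_dot, ← sub_smul, dotProduct_smul, dotProduct_single, smul_eq_mul]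
  simp only [Pi.sub_apply]
  change _ * ((Pool.Agent.Helper45GL.lift (fun i a => p i a) z u a -
    Pool.Agent.Helper45GL.lift (fun i a => p i a) z v a) * 1) = _
  ring

end Pool.Agent.Results.MP_32f1bc_co.LinkedGloballyLinked
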